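import Pool.Agent.Q178.HG.Def5c

/-! The second Haar weight of a polynomial hypergroup can be arbitrarily close to one. -/

namespace Pool.Agent.Results.MP_5c86b6_an.SecondWeightNearOne

open Pool.Agent.Q178.HG Pool.Agent.Q178.HG.Def5c

theorem result (δ : ℝ) (hδ : 0 < δ) :
    ∃ a b c : ℕ → ℝ, PolynomialHypergroup a b c ∧ haar a c 2 < 1 + δ := by
  obtain ⟨s, hs, h⟩ := small hδ
  exact ⟨_, _, _, hyp3 hs, by rw [haar3 hs]; exact h⟩

end Pool.Agent.Results.MP_5c86b6_an.SecondWeightNearOne
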